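import Mathlib

open Complex

namespace Pool.Agent.Results.MP_366529_co.RotorFlip

/-! ### Definitions -/

/-- `p` is a (straight-line) plane embedding of `G`: the vertices are distinct points of the plane,
the edges are drawn as segments, two different edges meet only in common ends, and no edge passes
through a vertex that is not one of its ends. -/
structure PlaneDrawing {V : Type} (G : SimpleGraph V) (p : V → ℂ) : Prop where
  inj : Function.Injective p
  cross : ∀ a b c d, G.Adj a b → G.Adj c d → s(a, b) ≠ s(c, d) →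
    ∀ z ∈ segment ℝ (p a) (p b), z ∈ segment ℝ (p c) (p d) →
      ∃ x, z = p x ∧ (x = a ∨ x = b) ∧ (x = c ∨ x = d)
  vert : ∀ a b x, G.Adj a b → p x ∈ segment ℝ (p a) (p b) → x = a ∨ x = b

/-- `R` is a rotor of order `n` of `G`, with vertices of attachment `att i` (`i` modulo `n`),
rotational symmetry `θ`, in the plane embedding `p`, with the closed disc `D` of radius `r` and
centre `0`. -/
structure IsRotor {V : Type} (G R : SimpleGraph V) (n : ℕ) (att : ZMod n → V)
    (θ : Equiv.Perm V) (p : V → ℂ) (r : ℝ) : Prop where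
  /-- `R` is a subgraph of `G` -/
  le : R ≤ G
  order_pos : 0 < n
  att_inj : Function.Injective att
  /-- the `att i` are exactly the vertices of attachment of `R` -/
  att_iff : ∀ x, (∃ i, att i = x) ↔
    (∃ y, R.Adj x y) ∧ (∃ y, G.Adj x y ∧ ¬ R.Adj x y)
  drawing : PlaneDrawing G p
  radius_pos : 0 < r
  /-- `R` lies in the disc `D` -/
  inside : ∀ x y, R.Adj x y → segment ℝ (p x) (p y) ⊆ Metric.closedBall 0 r
  /-- the rest of `G` meets `D` only in vertices of attachment -/
  outside : ∀ x y, G.Adj x y → ¬ R.Adj x y → ∀ z ∈ segment ℝ (p x) (p y),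
    z ∈ Metric.closedBall (0 : ℂ) r → ∃ i, z = p (att i)
  /-- the boundary of `D` meets the drawing exactly in the vertices of attachment -/
  boundary : ∀ z : ℂ, z ∈ Metric.sphere (0 : ℂ) r →
    ((∃ x y, G.Adj x y ∧ z ∈ segment ℝ (p x) (p y)) ↔ ∃ i, z = p (att i))
  /-- vertices not in `R` lie outside `D` -/
  outside_vert : ∀ x, (∀ y, ¬ R.Adj x y) → p x ∉ Metric.closedBall (0 : ℂ) r
  /-- the vertices of attachment are in cyclic order on the boundary of `D` -/
  cyclic : ∀ i, p (att (i + 1)) = exp (2 * Real.pi * I / n) * p (att i)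
  /-- `θ` is induced by the rotation of `D` -/
  rot : ∀ x, (∃ y, R.Adj x y) → p (θ x) = exp (2 * Real.pi * I / n) * p x
  /-- `θ` is an automorphism of `R` -/
  aut : ∀ x y, R.Adj (θ x) (θ y) ↔ R.Adj x y
  rot_att : ∀ i, θ (att i) = att (i + 1)

/-- The permutation that describes how the flipped copy of `R` is glued in: `v_i ↦ v_{-i}`, the
copies of the other vertices of `R` keep their names. -/
structure IsFlipMap {V : Type} {n : ℕ} (att : ZMod n → V) (σ : Equiv.Perm V) : Prop where
  map_att : ∀ i, σ (att i) = att (-i)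
  map_other : ∀ x, (∀ i, att i ≠ x) → σ x = x

/-- The graph obtained from `G` by flipping `R`: the edges of `R` are deleted and the copy
of `R` given by `σ` is glued in. -/
def flip {V : Type} (G R : SimpleGraph V) (σ : Equiv.Perm V) : SimpleGraph V where
  Adj x y := (G.Adj x y ∧ ¬ R.Adj x y) ∨ R.Adj (σ.symm x) (σ.symm y)
  symm := ⟨fun x y h => by
    rcases h with h | h
    · exact Or.inl ⟨h.1.symm, fun h' => h.2 h'.symm⟩
    · exact Or.inr h.symm⟩
  loopless := ⟨fun x h => by
    rcases h with h | h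
    · exact G.loopless.irrefl x h.1
    · exact R.loopless.irrefl _ h⟩

/-- `P(G,k)`: the number of proper colourings of the vertices with `k` colours. -/
noncomputable def numColorings {V : Type} (G : SimpleGraph V) (k : ℕ) : ℕ :=
  Nat.card {c : V → Fin k // ∀ x y, G.Adj x y → c x ≠ c y}

/-! ### The example -/

/-- the edges of the rotor -/
def ERl : List (ℕ × ℕ) := [(0, 15), (0, 18), (0, 19), (1, 16), (1, 19), (1, 20), (2, 17), (2, 20), (2, 21), (3, 12), (3, 21), (3, 22), (4, 13), (4, 22), (4, 23), (5, 14), (5, 18), (5, 23), (6, 7), (6, 11), (6, 15), (6, 16), (7, 8), (7, 16), (7, 17), (8, 9), (8, 12), (8, 17), (9, 10), (9, 12), (9, 13), (10, 11), (10, 13), (10, 14), (11, 14), (11, 15), (12, 13), (12, 17), (12, 22), (13, 14), (13, 23), (14, 15), (14, 18), (15, 16), (15, 19), (16, 17), (16, 20), (17, 21)]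

/-- the other edges -/
def EWl : List (ℕ × ℕ) := [(26, 27), (0, 24), (4, 28), (1, 29), (3, 27), (2, 25), (5, 28), (3, 26), (2, 27), (1, 25), (5, 24), (0, 29), (2, 26), (25, 29), (24, 29), (25, 26), (24, 28), (26, 28)]

/-- coordinates in the basis `1, w` -/
def Pl : List (ℤ × ℤ) := [(30, 0), (0, 30), (-30, 30), (-30, 0), (0, -30), (30, -30), (-4, 16), (-16, 12), (-12, -4), (4, -16), (16, -12), (12, 4), (-8, -14), (14, -22), (22, -8), (8, 14), (-14, 22), (-22, 8), (22, 2), (-2, 24), (-24, 22), (-22, -2), (2, -24), (24, -22), (54, -9), (-41, 64), (-73, 26), (-64, 23), (20, -55), (12, 45)]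

/-- the rotation of the rotor -/
def thl : List ℕ := [1, 2, 3, 4, 5, 0, 7, 8, 9, 10, 11, 6, 13, 14, 15, 16, 17, 12, 19, 20, 21, 22, 23, 18, 24, 25, 26, 27, 28, 29]

/-- a proper colouring with three colours -/
def coll : List ℕ := [1, 2, 0, 0, 2, 0, 1, 2, 0, 1, 2, 0, 2, 0, 1, 2, 0, 1, 2, 0, 1, 2, 1, 1, 2, 1, 2, 1, 1, 0]

/-- order of the vertices used to show that the flipped graph has no proper 3-colouring -/
def ordl : List ℕ := [2, 13, 23, 12, 9, 8, 17, 7, 16, 6, 15, 14, 10, 11, 1, 25, 26, 3, 22, 27, 29, 0, 18, 24, 5, 28, 19, 4, 20, 21]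

/-- for each vertex in the order above, positions of its earlier neighbours -/
def nbl : List (List ℕ) := [[], [0], [0, 1], [1], [1, 3], [3, 4], [3, 5], [5, 6], [6, 7], [7, 8], [8, 9], [1, 10], [1, 4, 11], [9, 10, 11, 12], [2, 11], [0, 14], [0, 15], [3, 16], [0, 3, 17], [0, 16, 17], [14, 15], [10, 20], [11, 14, 21], [20, 21], [8, 23], [16, 23, 24], [10, 21, 24], [6, 25], [8, 24, 27], [6, 17, 27]]

def ERs : List (ℕ × ℕ) := ERl ++ ERl.map Prod.swap

def EWs : List (ℕ × ℕ) := EWl ++ EWl.map Prod.swap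

def GS : List (ℕ × ℕ) := ERs ++ EWs

/-- adjacency matrix of the rotor, as the bits of a number -/
def MR : ℕ := 42327656102482419470348607103554699833521016419259984856166204983189683104353953867305047695790384606631547071090744816866864198662815845358908990628896400986631168447457276608241225768561114872001270136169070592

/-- adjacency matrix of the graph, as the bits of a number -/
def MG : ℕ := 396220922583370964595161824179712742844954599673307478749208166676555482296550576884416593554551844914304038577254664134054024282892824761118814018451618259393362455146409110178277243476904481211393951628406731554130412120715012319571811044907090171214626457955169239040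

def adjR (x y : ℕ) : Bool := MR.testBit (30 * x + y)

def adjG (x y : ℕ) : Bool := MG.testBit (30 * x + y)

lemma adjR_symm : ∀ x y : Fin 30, adjR x y = true → adjR y x = true := by decide +kernel

lemma adjG_symm : ∀ x y : Fin 30, adjG x y = true → adjG y x = true := by decide +kernel

lemma adjR_irr : ∀ x : Fin 30, ¬ adjR x x = true := by decide +kernel

lemma adjG_irr : ∀ x : Fin 30, ¬ adjG x x = true := by decide +kernel

lemma adjR_adjG : ∀ x y : Fin 30, adjR x y = true → adjG x y = true := by decide +kernel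

/-- the rotor -/
def RR : SimpleGraph (Fin 30) where
  Adj x y := adjR x y = true
  symm := ⟨fun x y h => adjR_symm x y h⟩
  loopless := ⟨fun x h => adjR_irr x h⟩

/-- the graph -/
def GG : SimpleGraph (Fin 30) where
  Adj x y := adjG x y = true
  symm := ⟨fun x y h => adjG_symm x y h⟩
  loopless := ⟨fun x h => adjG_irr x h⟩

instance : DecidableRel RR.Adj := fun x y => inferInstanceAs (Decidable (adjR x y = true))

instance : DecidableRel GG.Adj := fun x y => inferInstanceAs (Decidable (adjG x y = true))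

def att (i : ZMod 6) : Fin 30 := ⟨i.val, lt_trans (ZMod.val_lt i) (by norm_num)⟩

def thf (x : Fin 30) : Fin 30 := Fin.ofNat 30 (thl.getD x 0)

def thi (x : Fin 30) : Fin 30 := thf (thf (thf (thf (thf x))))

def th : Equiv.Perm (Fin 30) where
  toFun := thf
  invFun := thi
  left_inv := by
    have : ∀ x, thi (thf x) = x := by decide +kernel
    exact this
  right_inv := by
    have : ∀ x, thf (thi x) = x := by decide +kernel
    exact this

def sgf (x : Fin 30) : Fin 30 :=
  if x.val = 1 then 5 else if x.val = 2 then 4 else if x.val = 4 then 2 else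
    if x.val = 5 then 1 else x

def sg : Equiv.Perm (Fin 30) where
  toFun := sgf
  invFun := sgf
  left_inv := by
    have : ∀ x, sgf (sgf x) = x := by decide +kernel
    exact this
  right_inv := by
    have : ∀ x, sgf (sgf x) = x := by decide +kernel
    exact this

def PA (x : ℕ) : ℤ := (Pl.getD x (0, 0)).1

def PB (x : ℕ) : ℤ := (Pl.getD x (0, 0)).2

/-! ### Combinatorial checks -/

lemma att_check : ∀ x : Fin 30, (∃ i, att i = x) ↔
    (∃ y, RR.Adj x y) ∧ (∃ y, GG.Adj x y ∧ ¬ RR.Adj x y) := by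
  decide +kernel

lemma th_aut : ∀ x y : Fin 30, RR.Adj (th x) (th y) ↔ RR.Adj x y := by
  decide +kernel

lemma th_att : ∀ i, th (att i) = att (i + 1) := by decide +kernel

lemma sg_att : ∀ i, sg (att i) = att (-i) := by decide +kernel

lemma sg_other : ∀ x, (∀ i, att i ≠ x) → sg x = x := by decide +kernel

/-- every vertex has a neighbour -/
lemma has_nb : ∀ x : Fin 30, ∃ y, GG.Adj x y := by decide +kernel

/-- the coordinates rotate -/
lemma rotA : ∀ x : Fin 30, x.val < 24 → PA (th x) = - PB x ∧ PB (th x) = PA x + PB x := by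
  decide +kernel

lemma R_small : ∀ x y : Fin 30, RR.Adj x y → x.val < 24 := by decide +kernel

lemma R_of_small : ∀ x : Fin 30, x.val < 24 → ∃ y, RR.Adj x y := by decide +kernel

/-! ### The colourings -/

def search : List (List ℕ) → List ℕ → Bool
  | [], _ => true
  | nb :: rest, cols =>
    [0, 1, 2].any fun c => (nb.all fun i => !(Nat.beq (cols.getD i 3) c)) &&
      search rest (cols ++ [c])

lemma search_sound (f : ℕ → ℕ) (hf : ∀ i, f i < 3) (rest : List (List ℕ)) : ∀ k : ℕ,
    (∀ j (hj : j < rest.length), ∀ i ∈ rest[j], i < k + j ∧ f i ≠ f (k + j)) →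
    search rest ((List.range k).map f) = true := by
  induction rest with
  | nil => intro k _; rfl
  | cons nb rest ih =>
    intro k h
    have h1 : search rest ((List.range (k + 1)).map f) = true := by
      apply ih
      intro j hj i hi
      have := h (j + 1) (by simpa using hj) i (by simpa using hi)
      rw [show k + (j + 1) = k + 1 + j by ring] at this
      exact this
    rw [List.range_succ, List.map_append] at h1
    simp only [List.map_cons, List.map_nil] at h1
    rw [search, List.any_eq_true]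
    refine ⟨f k, ?_, ?_⟩
    · have := hf k
      interval_cases f k <;> simp
    · rw [Bool.and_eq_true]
      refine ⟨?_, h1⟩
      rw [List.all_eq_true]
      intro i hi
      obtain ⟨hik, hne⟩ := h 0 (by simp) i (by simpa using hi)
      rw [add_zero] at hik hne
      have h2 : ((List.range k).map f).getD i 3 = f i := by
        rw [List.getD_eq_getElem _ _ (by simpa using hik)]
        simp
      rw [h2]
      have : Nat.beq (f i) (f k) = false := by
        rw [← Bool.not_eq_true]
        intro h3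
        exact hne (Nat.eq_of_beq_eq_true h3)
      rw [this]
      rfl

lemma search_nbl : search nbl [] = false := by decide +kernel

def ordF (i : ℕ) : Fin 30 := Fin.ofNat 30 (ordl.getD i 0)

instance : DecidableRel (flip GG RR sg).Adj := fun x y =>
  inferInstanceAs (Decidable ((GG.Adj x y ∧ ¬ RR.Adj x y) ∨ RR.Adj (sg.symm x) (sg.symm y)))

lemma nbl_ok : ∀ j : Fin 30, ∀ i ∈ nbl.getD j [], i < j.val ∧
    (flip GG RR sg).Adj (ordF i) (ordF j) := by
  decide +kernel

lemma flip_none : numColorings (flip GG RR sg) 3 = 0 := by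
  unfold numColorings
  rw [Nat.card_eq_zero]
  left
  constructor
  rintro ⟨c, hc⟩
  have h := search_sound (fun i => (c (ordF i)).val) (fun i => (c (ordF i)).2) nbl 0 (by
    intro j hj i hi
    have hj' : j < 30 := hj
    have := nbl_ok ⟨j, hj'⟩ i (by
      show i ∈ nbl.getD j []
      rw [List.getD_eq_getElem _ _ hj]
      exact hi)
    refine ⟨by simpa using this.1, ?_⟩
    intro h
    rw [zero_add] at h
    exact hc _ _ this.2 (Fin.ext h))
  rw [show (List.range 0).map (fun i => (c (ordF i)).val) = [] from rfl, search_nbl] at h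
  exact absurd h (by decide)

def col (x : Fin 30) : Fin 3 := Fin.ofNat 3 (coll.getD x 0)

lemma col_ok : ∀ x y : Fin 30, GG.Adj x y → col x ≠ col y := by decide +kernel

lemma G_some : numColorings GG 3 ≠ 0 := by
  unfold numColorings
  rw [Nat.card_ne_zero]
  exact ⟨⟨⟨col, col_ok⟩⟩, inferInstance⟩

/-! ### Geometry -/

/-- the point with coordinates `x, y` in the basis `1, exp(πi/3)` -/
noncomputable def ph (x y : ℝ) : ℂ := ⟨x + y / 2, y * (√3 / 2)⟩

lemma s3 : (√3 : ℝ) ^ 2 = 3 := Real.sq_sqrt (by norm_num)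

lemma s3pos : (0 : ℝ) < √3 := by positivity

lemma ph_inj {x y x' y' : ℝ} (h : ph x y = ph x' y') : x = x' ∧ y = y' := by
  have h1 := congrArg Complex.re h
  have h2 := congrArg Complex.im h
  simp only [ph] at h1 h2
  have h3 : y = y' := by
    have := s3pos
    have h4 : (y - y') * √3 = 0 := by linarith
    rcases mul_eq_zero.1 h4 with h5 | h5
    · linarith
    · exact absurd h5 this.ne'
  exact ⟨by linarith, h3⟩

lemma ph_norm (x y : ℝ) : ‖ph x y‖ ^ 2 = x ^ 2 + x * y + y ^ 2 := by
  rw [Complex.sq_norm, Complex.normSq_apply]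
  simp only [ph]
  have := s3
  nlinarith

noncomputable def pp (v : Fin 30) : ℂ := ph (PA v) (PB v)

lemma seg_mem {a b : Fin 30} {z : ℂ} (h : z ∈ segment ℝ (pp a) (pp b)) :
    ∃ t : ℝ, 0 ≤ t ∧ t ≤ 1 ∧
      z = ph (PA a + t * (PA b - PA a)) (PB a + t * (PB b - PB a)) := by
  rw [segment_eq_image] at h
  obtain ⟨t, ⟨ht0, ht1⟩, rfl⟩ := h
  refine ⟨t, ht0, ht1, ?_⟩
  apply Complex.ext
  · simp only [pp, ph, Complex.add_re, Complex.real_smul, Complex.mul_re, Complex.ofReal_re,
      Complex.ofReal_im]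
    ring
  · simp only [pp, ph, Complex.add_im, Complex.real_smul, Complex.mul_im, Complex.ofReal_re,
      Complex.ofReal_im]
    ring

/-- cross product of `b - a` and `c - a` -/
def cr (a b c : ℕ) : ℤ := (PA b - PA a) * (PB c - PB a) - (PB b - PB a) * (PA c - PA a)

lemma adj_sound {x y u : Fin 30} (h : cr x y u ≠ 0) {z : ℂ} (h1 : z ∈ segment ℝ (pp x) (pp y))
    (h2 : z ∈ segment ℝ (pp x) (pp u)) : z = pp x := by
  obtain ⟨t, ht0, ht1, rfl⟩ := seg_mem h1
  obtain ⟨s, hs0, hs1, hz⟩ := seg_mem h2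
  obtain ⟨e1, e2⟩ := ph_inj hz
  have hc : ((cr x y u : ℤ) : ℝ) ≠ 0 := by exact_mod_cast h
  have hcr : ((cr x y u : ℤ) : ℝ) = ((PA y : ℝ) - PA x) * ((PB u : ℝ) - PB x) -
      ((PB y : ℝ) - PB x) * ((PA u : ℝ) - PA x) := by
    unfold cr; push_cast; ring
  have ht : t * ((cr x y u : ℤ) : ℝ) = 0 := by
    rw [hcr]
    linear_combination ((PB u : ℝ) - PB x) * e1 - ((PA u : ℝ) - PA x) * e2
  have ht' : t = 0 := by
    rcases mul_eq_zero.1 ht with h | h
    · exact h
    · exact absurd h hc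
  rw [ht']
  simp [pp]

lemma side_sound {a b c d : Fin 30} (h : 0 < cr a b c * cr a b d) {z : ℂ}
    (h1 : z ∈ segment ℝ (pp a) (pp b)) (h2 : z ∈ segment ℝ (pp c) (pp d)) : False := by
  obtain ⟨t, ht0, ht1, rfl⟩ := seg_mem h1
  obtain ⟨s, hs0, hs1, hz⟩ := seg_mem h2
  obtain ⟨e1, e2⟩ := ph_inj hz
  have hcr : ∀ u : Fin 30, ((cr a b u : ℤ) : ℝ) = ((PA b : ℝ) - PA a) * ((PB u : ℝ) - PB a) -
      ((PB b : ℝ) - PB a) * ((PA u : ℝ) - PA a) := by
    intro u; unfold cr; push_cast; ring
  have hpos : (0 : ℝ) < ((cr a b c : ℤ) : ℝ) * ((cr a b d : ℤ) : ℝ) := by exact_mod_cast h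
  have hz0 : (1 - s) * ((cr a b c : ℤ) : ℝ) + s * ((cr a b d : ℤ) : ℝ) = 0 := by
    rw [hcr, hcr]
    linear_combination ((PB b : ℝ) - PB a) * e1 - ((PA b : ℝ) - PA a) * e2
  generalize ((cr a b c : ℤ) : ℝ) = X at *
  generalize ((cr a b d : ℤ) : ℝ) = Y at *
  have h3 : (1 - s) * (X * X) + s * (X * Y) = 0 := by
    linear_combination X * hz0
  have hX : 0 < X * X := by
    have : X ≠ 0 := by
      rintro rfl
      simp at hpos
    exact mul_self_pos.2 this
  rcases eq_or_lt_of_le hs0 with h4 | h4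
  · rw [← h4] at h3
    simp at h3
    rw [h3] at hX
    simp at hX
  · have h5 : 0 < s * (X * Y) := mul_pos h4 hpos
    have h6 : 0 ≤ (1 - s) * (X * X) := mul_nonneg (by linarith) hX.le
    linarith

def chk (a b c d : ℕ) : Bool :=
  (Nat.beq a c && Nat.beq b d) || (Nat.beq a d && Nat.beq b c) ||
  (Nat.beq a c && decide (cr a b d ≠ 0)) || (Nat.beq a d && decide (cr a b c ≠ 0)) ||
  (Nat.beq b c && decide (cr b a d ≠ 0)) || (Nat.beq b d && decide (cr b a c ≠ 0)) ||
  decide (0 < cr a b c * cr a b d) || decide (0 < cr c d a * cr c d b)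

def EL : List (ℕ × ℕ) := ERl ++ EWl

lemma chk_all : (EL.all fun e => EL.all fun f => chk e.1 e.2 f.1 f.2) = true := by
  decide +kernel

/-- two edges meet only in a common end -/
def Good (a b c d : Fin 30) : Prop := s(a, b) ≠ s(c, d) →
    ∀ z ∈ segment ℝ (pp a) (pp b), z ∈ segment ℝ (pp c) (pp d) →
      ∃ x, z = pp x ∧ (x = a ∨ x = b) ∧ (x = c ∨ x = d)

lemma chk_sound (a b c d : Fin 30) (h : chk a b c d = true) : Good a b c d := by
  intro hne z h1 h2
  unfold chk at h
  simp only [Bool.or_eq_true, Bool.and_eq_true, decide_eq_true_eq] at h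
  have hb : ∀ x y : Fin 30, Nat.beq x y = true → x = y := fun x y h =>
    Fin.ext (Nat.eq_of_beq_eq_true h)
  rcases h with ((((((h | h) | h) | h) | h) | h) | h) | h
  · exact absurd (by rw [hb _ _ h.1, hb _ _ h.2]) hne
  · exact absurd (by rw [hb _ _ h.1, hb _ _ h.2, Sym2.eq_swap]) hne
  · have e := hb _ _ h.1
    subst e
    exact ⟨a, adj_sound h.2 h1 h2, Or.inl rfl, Or.inl rfl⟩
  · have e := hb _ _ h.1
    subst e
    rw [segment_symm] at h2
    exact ⟨a, adj_sound h.2 h1 h2, Or.inl rfl, Or.inr rfl⟩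
  · have e := hb _ _ h.1
    subst e
    rw [segment_symm] at h1
    exact ⟨b, adj_sound h.2 h1 h2, Or.inr rfl, Or.inl rfl⟩
  · have e := hb _ _ h.1
    subst e
    rw [segment_symm] at h1 h2
    exact ⟨b, adj_sound h.2 h1 h2, Or.inr rfl, Or.inr rfl⟩
  · exact absurd (side_sound h h1 h2) id
  · exact absurd (side_sound h h2 h1) id

lemma Good.swap₁ {a b c d : Fin 30} (h : Good a b c d) : Good b a c d := by
  intro hne z h1 h2
  rw [segment_symm] at h1
  obtain ⟨x, hx, h3, h4⟩ := h (by rw [Sym2.eq_swap]; exact hne) z h1 h2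
  exact ⟨x, hx, h3.symm, h4⟩

lemma Good.swap₂ {a b c d : Fin 30} (h : Good a b c d) : Good a b d c := by
  intro hne z h1 h2
  rw [segment_symm] at h2
  obtain ⟨x, hx, h3, h4⟩ := h (by intro e; apply hne; rw [e, Sym2.eq_swap]) z h1 h2
  exact ⟨x, hx, h3, h4.symm⟩

lemma adj_EL : ∀ x y : Fin 30, GG.Adj x y → ((x : ℕ), (y : ℕ)) ∈ EL ∨ ((y : ℕ), (x : ℕ)) ∈ EL := by
  decide +kernel

lemma good_all (a b c d : Fin 30) (h1 : GG.Adj a b) (h2 : GG.Adj c d) : Good a b c d := by
  have key : ∀ a b c d : Fin 30, ((a : ℕ), (b : ℕ)) ∈ EL → ((c : ℕ), (d : ℕ)) ∈ EL →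
      Good a b c d := by
    intro a b c d h1 h2
    apply chk_sound
    have := chk_all
    rw [List.all_eq_true] at this
    have h3 := this _ h1
    rw [List.all_eq_true] at h3
    exact h3 _ h2
  rcases adj_EL a b h1 with h1 | h1 <;> rcases adj_EL c d h2 with h2 | h2
  · exact key _ _ _ _ h1 h2
  · exact (key _ _ _ _ h1 h2).swap₂
  · exact (key _ _ _ _ h1 h2).swap₁
  · exact (key _ _ _ _ h1 h2).swap₁.swap₂

lemma P_inj : ∀ x y : Fin 30, PA x = PA y → PB x = PB y → x = y := by decide +kernel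

lemma pp_inj : Function.Injective pp := by
  intro x y h
  obtain ⟨h1, h2⟩ := ph_inj h
  exact P_inj x y (by exact_mod_cast h1) (by exact_mod_cast h2)

lemma drawing : PlaneDrawing GG pp where
  inj := pp_inj
  cross := fun a b c d h1 h2 hne z hz1 hz2 => good_all a b c d h1 h2 hne z hz1 hz2
  vert := by
    intro a b x hab hx
    obtain ⟨y, hy⟩ := has_nb x
    by_cases hne : s(a, b) = s(x, y)
    · have : x ∈ s(a, b) := by rw [hne]; exact Sym2.mem_mk_left x y
      exact Sym2.mem_iff.1 this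
    · obtain ⟨u, hu, h1, _⟩ := good_all a b x y hab hy hne _ hx (left_mem_segment ℝ _ _)
      rw [pp_inj hu]
      exact h1

/-- the squared norm of a vertex -/
def nr (a : ℕ) : ℤ := PA a ^ 2 + PA a * PB a + PB a ^ 2

lemma pp_norm (v : Fin 30) : ‖pp v‖ ^ 2 = (nr v : ℝ) := by
  rw [pp, ph_norm, nr]
  push_cast
  ring

lemma nr_att : ∀ v : Fin 30, v.val < 6 → nr v = 900 := by decide +kernel

lemma nr_in : ∀ v : Fin 30, v.val < 24 → nr v ≤ 900 := by decide +kernel

lemma nr_eq : ∀ v : Fin 30, nr v = 900 → v.val < 6 := by decide +kernel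

lemma nr_out : ∀ v : Fin 30, 24 ≤ v.val → 900 < nr v := by decide +kernel

lemma att_surj : ∀ v : Fin 30, v.val < 6 → ∃ i, v = att i := by decide +kernel

/-- the squared norm of a point of a segment -/
lemma seg_norm {a b : Fin 30} {z : ℂ} (h : z ∈ segment ℝ (pp a) (pp b)) :
    ∃ t : ℝ, 0 ≤ t ∧ t ≤ 1 ∧ (t = 0 → z = pp a) ∧ (t = 1 → z = pp b) ∧
      ‖z‖ ^ 2 = (PA a + t * (PA b - PA a)) ^ 2 +
        (PA a + t * (PA b - PA a)) * (PB a + t * (PB b - PB a)) +
        (PB a + t * (PB b - PB a)) ^ 2 := by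
  obtain ⟨t, ht0, ht1, rfl⟩ := seg_mem h
  refine ⟨t, ht0, ht1, ?_, ?_, ph_norm _ _⟩
  · rintro rfl
    simp [pp]
  · rintro rfl
    simp [pp]

/-- twice the inner product of `a` and `b - a` -/
def ip (a b : ℕ) : ℤ := 2 * PA a * (PA b - PA a) + 2 * PB a * (PB b - PB a) +
  PA a * (PB b - PB a) + PB a * (PA b - PA a)

/-- squared length of an edge -/
def ln (a b : ℕ) : ℤ := (PA b - PA a) ^ 2 + (PA b - PA a) * (PB b - PB a) + (PB b - PB a) ^ 2

def chkO (a b : ℕ) : Bool :=
  (decide (900 ≤ nr a) && decide (0 ≤ ip a b) && decide (0 < ln a b)) ||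
  (decide (900 ≤ nr b) && decide (0 ≤ ip b a) && decide (0 < ln b a)) ||
  (decide (0 < ln a b) && decide (3600 * ln a b < 4 * nr a * ln a b - ip a b ^ 2))

lemma chkO_all : (EWl.all fun e => chkO e.1 e.2) = true := by decide +kernel

lemma norm_sq_le {z : ℂ} (h : ‖z‖ ≤ 30) : ‖z‖ ^ 2 ≤ 900 := by
  have := norm_nonneg z
  nlinarith

lemma out_one {a b : Fin 30} (h1 : 900 ≤ nr a) (h2 : 0 ≤ ip a b) (h3 : 0 < ln a b) {z : ℂ}
    (hz : z ∈ segment ℝ (pp a) (pp b)) (hn : ‖z‖ ≤ 30) : z = pp a ∧ nr a = 900 := by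
  obtain ⟨t, ht0, ht1, ha, hb, he⟩ := seg_norm hz
  have hn2 := norm_sq_le hn
  have h1' : (900 : ℝ) ≤ nr a := by exact_mod_cast h1
  have h2' : (0 : ℝ) ≤ ip a b := by exact_mod_cast h2
  have h3' : (0 : ℝ) < ln a b := by exact_mod_cast h3
  have e : ‖z‖ ^ 2 = nr a + t * ip a b + t ^ 2 * ln a b := by
    rw [he, nr, ip, ln]
    push_cast
    ring
  rw [e] at hn2
  have h4 : 0 ≤ t * ip a b := mul_nonneg ht0 h2'
  have h5 : 0 ≤ t ^ 2 * ln a b := by positivity
  have h6 : t ^ 2 * ln a b = 0 := by linarith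
  have h7 : t = 0 := by
    rcases mul_eq_zero.1 h6 with h | h
    · exact pow_eq_zero_iff (two_ne_zero) |>.1 h
    · exact absurd h h3'.ne'
  refine ⟨ha h7, ?_⟩
  have : (nr a : ℝ) = 900 := by linarith
  exact_mod_cast this

lemma out_two {a b : Fin 30} (h3 : 0 < ln a b)
    (h4 : 3600 * ln a b < 4 * nr a * ln a b - ip a b ^ 2) {z : ℂ}
    (hz : z ∈ segment ℝ (pp a) (pp b)) (hn : ‖z‖ ≤ 30) : False := by
  obtain ⟨t, ht0, ht1, ha, hb, he⟩ := seg_norm hz
  have hn2 := norm_sq_le hn
  have h3' : (0 : ℝ) < ln a b := by exact_mod_cast h3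
  have h4' : (3600 : ℝ) * ln a b < 4 * nr a * ln a b - (ip a b : ℝ) ^ 2 := by exact_mod_cast h4
  have e : ‖z‖ ^ 2 = nr a + t * ip a b + t ^ 2 * ln a b := by
    rw [he, nr, ip, ln]
    push_cast
    ring
  rw [e] at hn2
  nlinarith [sq_nonneg (2 * t * (ln a b : ℝ) + ip a b), mul_le_mul_of_nonneg_right hn2 h3'.le]

lemma chkO_sound {a b : Fin 30} (h : chkO a b = true) {z : ℂ}
    (hz : z ∈ segment ℝ (pp a) (pp b)) (hn : ‖z‖ ≤ 30) : ∃ i, z = pp (att i) := by
  have fin : ∀ v : Fin 30, z = pp v → nr v = 900 → ∃ i, z = pp (att i) := by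
    intro v hv hv2
    obtain ⟨i, hi⟩ := att_surj v (nr_eq v hv2)
    exact ⟨i, by rw [hv, hi]⟩
  unfold chkO at h
  simp only [Bool.or_eq_true, Bool.and_eq_true, decide_eq_true_eq] at h
  rcases h with (⟨⟨h1, h2⟩, h3⟩ | ⟨⟨h1, h2⟩, h3⟩) | ⟨h1, h2⟩
  · obtain ⟨e1, e2⟩ := out_one h1 h2 h3 hz hn
    exact fin a e1 e2
  · rw [segment_symm] at hz
    obtain ⟨e1, e2⟩ := out_one h1 h2 h3 hz hn
    exact fin b e1 e2
  · exact absurd (out_two h1 h2 hz hn) id

lemma all_apply (l : List (ℕ × ℕ)) (f : ℕ → ℕ → Bool) (h : (l.all fun e => f e.1 e.2) = true)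
    (a b : ℕ) (hab : (a, b) ∈ l) : f a b = true := by
  rw [List.all_eq_true] at h
  exact h _ hab

lemma adj_EWl : ∀ x y : Fin 30, GG.Adj x y → ¬ RR.Adj x y →
    ((x : ℕ), (y : ℕ)) ∈ EWl ∨ ((y : ℕ), (x : ℕ)) ∈ EWl := by
  decide +kernel

lemma out_edge (x y : Fin 30) (h1 : GG.Adj x y) (h2 : ¬ RR.Adj x y) (z : ℂ)
    (hz : z ∈ segment ℝ (pp x) (pp y)) (hn : ‖z‖ ≤ 30) : ∃ i, z = pp (att i) := by
  rcases adj_EWl x y h1 h2 with h | h
  · exact chkO_sound (all_apply EWl chkO chkO_all x y h) hz hn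
  · rw [segment_symm] at hz
    exact chkO_sound (all_apply EWl chkO chkO_all y x h) hz hn

lemma ln_pos : ∀ x y : Fin 30, RR.Adj x y → 0 < ln x y := by decide +kernel

lemma norm_le_of_nr {v : Fin 30} (h : nr v ≤ 900) : ‖pp v‖ ≤ 30 := by
  have h1 := pp_norm v
  have h2 : (nr v : ℝ) ≤ 900 := by exact_mod_cast h
  have := norm_nonneg (pp v)
  nlinarith

lemma in_edge (x y : Fin 30) (h1 : RR.Adj x y) (z : ℂ)
    (hz : z ∈ segment ℝ (pp x) (pp y)) (hn : ‖z‖ = 30) : ∃ i, z = pp (att i) := by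
  obtain ⟨t, ht0, ht1, ha, hb, he⟩ := seg_norm hz
  have hx := nr_in x (R_small x y h1)
  have hy := nr_in y (R_small y x h1.symm)
  have hl : (0 : ℝ) < ln x y := by exact_mod_cast ln_pos x y h1
  have hx' : (nr x : ℝ) ≤ 900 := by exact_mod_cast hx
  have hy' : (nr y : ℝ) ≤ 900 := by exact_mod_cast hy
  have e : ‖z‖ ^ 2 = (1 - t) * nr x + t * nr y - t * (1 - t) * ln x y := by
    rw [he, nr, nr, ln]
    push_cast
    ring
  rw [hn] at e
  have h3 : (1 - t) * nr x ≤ (1 - t) * 900 := mul_le_mul_of_nonneg_left hx' (by linarith)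
  have h4 : t * nr y ≤ t * 900 := mul_le_mul_of_nonneg_left hy' ht0
  have h5 : 0 ≤ t * (1 - t) * ln x y := mul_nonneg (mul_nonneg ht0 (by linarith)) hl.le
  have h6 : t * (1 - t) * ln x y = 0 := by nlinarith
  have fin : ∀ v : Fin 30, z = pp v → ∃ i, z = pp (att i) := by
    intro v hv
    have h7 := pp_norm v
    rw [← hv, hn] at h7
    have h8 : nr v = 900 := by
      have : (nr v : ℝ) = 900 := by rw [← h7]; norm_num
      exact_mod_cast this
    obtain ⟨i, hi⟩ := att_surj v (nr_eq v h8)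
    exact ⟨i, by rw [hv, hi]⟩
  rcases mul_eq_zero.1 h6 with h | h
  · rcases mul_eq_zero.1 h with h | h
    · exact fin x (ha h)
    · exact fin y (hb (by linarith))
  · exact absurd h hl.ne'

lemma exp_eq : exp (2 * Real.pi * I / ((6 : ℕ) : ℂ)) = ⟨1 / 2, √3 / 2⟩ := by
  have h1 : (2 * Real.pi * I / ((6 : ℕ) : ℂ)) = ((Real.pi / 3 : ℝ) : ℂ) * I := by
    push_cast
    ring
  rw [h1, Complex.exp_mul_I, ← Complex.ofReal_cos, ← Complex.ofReal_sin, Real.cos_pi_div_three,
    Real.sin_pi_div_three]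
  apply Complex.ext <;> simp

lemma rot_pp (x : Fin 30) (hx : x.val < 24) :
    pp (th x) = exp (2 * Real.pi * I / ((6 : ℕ) : ℂ)) * pp x := by
  rw [exp_eq]
  obtain ⟨h1, h2⟩ := rotA x hx
  have h3 := s3
  unfold pp
  rw [h1, h2]
  apply Complex.ext
  · simp only [ph, Complex.mul_re]
    push_cast
    linear_combination ((PB x : ℝ) / 4) * h3
  · simp only [ph, Complex.mul_im]
    push_cast
    ring

lemma att_lt (i : ZMod 6) : (att i).val < 6 := ZMod.val_lt i

lemma att_inj : ∀ i j, att i = att j → i = j := by decide +kernel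

theorem rotor : IsRotor GG RR 6 att th pp 30 where
  le := fun x y h => adjR_adjG x y h
  order_pos := by norm_num
  att_inj := fun i j => att_inj i j
  att_iff := att_check
  drawing := drawing
  radius_pos := by norm_num
  inside := by
    intro x y h
    apply (convex_closedBall (0 : ℂ) 30).segment_subset
    · rw [mem_closedBall_zero_iff]
      exact norm_le_of_nr (nr_in x (R_small x y h))
    · rw [mem_closedBall_zero_iff]
      exact norm_le_of_nr (nr_in y (R_small y x h.symm))
  outside := by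
    intro x y h1 h2 z hz hn
    rw [mem_closedBall_zero_iff] at hn
    exact out_edge x y h1 h2 z hz hn
  boundary := by
    intro z hz
    rw [mem_sphere_zero_iff_norm] at hz
    constructor
    · rintro ⟨x, y, h1, h2⟩
      by_cases hR : RR.Adj x y
      · exact in_edge x y hR z h2 hz
      · exact out_edge x y h1 hR z h2 hz.le
    · rintro ⟨i, rfl⟩
      obtain ⟨y, hy⟩ := has_nb (att i)
      exact ⟨att i, y, hy, left_mem_segment ℝ _ _⟩
  outside_vert := by
    intro x hx hn
    rw [mem_closedBall_zero_iff] at hn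
    have h1 : 24 ≤ x.val := by
      by_contra h
      push Not at h
      obtain ⟨y, hy⟩ := R_of_small x h
      exact hx y hy
    have h2 := norm_sq_le hn
    rw [pp_norm] at h2
    have h3 : nr x ≤ 900 := by exact_mod_cast h2
    have := nr_out x h1
    omega
  cyclic := by
    intro i
    rw [← th_att]
    exact rot_pp _ (lt_trans (att_lt i) (by norm_num))
  rot := by
    rintro x ⟨y, hy⟩
    exact rot_pp x (R_small x y hy)
  aut := th_aut
  rot_att := th_att

theorem result : ∃ (V : Type) (_ : Fintype V) (G R : SimpleGraph V) (n : ℕ) (att : ZMod n → V)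
    (θ : Equiv.Perm V) (p : V → ℂ) (r : ℝ) (σ : Equiv.Perm V),
    IsRotor G R n att θ p r ∧ IsFlipMap att σ ∧
    0 < numColorings G 3 ∧ numColorings (flip G R σ) 3 = 0 :=
  ⟨Fin 30, inferInstance, GG, RR, 6, att, th, pp, 30, sg, rotor, ⟨sg_att, sg_other⟩,
    Nat.pos_of_ne_zero G_some, flip_none⟩

end Pool.Agent.Results.MP_366529_co.RotorFlip
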